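import Pool.Agent.Lib.MP_5c318e_ag.Vl.Fin
import Pool.Agent.Lib.MP_5c318e_ag.RD.HProj

/-! Closed range of `∂̄` on functions. -/

set_option autoImplicit false
set_option linter.unusedSectionVars false

namespace Pool.Agent.Lib.MP_5c318e_ag

open MeasureTheory Set Complex Filter Topology
open scoped ComplexConjugate

noncomputable section

namespace RD

variable {ι : Type} [Fintype ι] [DecidableEq ι] {S : Type} [TopologicalSpace S]
  [MeasurableSpace S] [BorelSpace S] [T2Space S] [SigmaCompactSpace S] {D : RD ι S}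
  {Φ φ ψ : S → ℝ}

theorem Pos.eq_of_gp (hΦ : D.Pos Φ) {x : S} {a b : ι → ℂ}
    (h : ∀ ξ, D.gp Φ x a ξ = D.gp Φ x b ξ) : a = b := by
  by_contra hne
  have := hΦ.2 x _ (sub_ne_zero.2 hne)
  rw [← gp_re hΦ.1, gp_sub, h, sub_self] at this
  exact lt_irrefl _ this

theorem L2.ae_zero (hΦ : D.Pos Φ) {W : S → ι → ℂ} (h : D.L2 Φ φ W)
    (h0 : ∫ x, D.gp Φ x (W x) (W x) * (Real.exp (-φ x) : ℂ) ∂D.μ = 0) : W =ᵐ[D.μ] 0 := by
  simp only [gp_self hΦ.1, ← ofReal_mul] at h0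
  rw [integral_complex_ofReal, ofReal_eq_zero, integral_eq_zero_iff_of_nonneg
    (fun x => mul_nonneg (hΦ.psh.2 x _) (Real.exp_pos _).le) h.2] at h0
  filter_upwards [h0] with x hx
  by_contra hne
  exact (mul_pos (hΦ.2 x _ hne) (Real.exp_pos _)).ne' hx

theorem sq_of_lint (hψ : Continuous ψ) {F : S → ℂ} (hF : Continuous F) {c : ℝ} (c0 : 0 ≤ c)
    (h : ∫⁻ x, ENNReal.ofReal (‖F x‖ ^ 2 * Real.exp (-ψ x)) ∂D.μ ≤ ENNReal.ofReal c) :
    F ∈ D.SQ ψ ∧ D.en ψ F ≤ c := by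
  have p : ∀ᵐ x ∂D.μ, 0 ≤ ‖F x‖ ^ 2 * Real.exp (-ψ x) := .of_forall fun x => by positivity
  have i : D.Sq ψ F := (lintegral_ofReal_ne_top_iff_integrable ((hF.norm.pow 2).mul
    (Real.continuous_exp.comp hψ.neg)).aestronglyMeasurable p).1
      (ne_top_of_le_ne_top ENNReal.ofReal_ne_top h)
  rw [← ofReal_integral_eq_lintegral_ofReal i p, ENNReal.ofReal_le_ofReal_iff c0] at h
  exact ⟨(mem_SQ hψ hF).2 i, h⟩

theorem cpt_SQ (hψ : Continuous ψ) {F : S → ℂ} (hF : Continuous F) (hc : HasCompactSupport F) :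
    F ∈ D.SQ ψ := ⟨hF, (hF.mul (rt_cont.comp hψ.neg)).memLp_of_hasCompactSupport hc.mul_right⟩

theorem dbar_hol_mul {z f : S → ℂ} (hz : D.Hol z) (hf : D.Sm f) (x : S) (ξ : ι → ℂ) :
    D.dbar (fun y => z y * f y) x ξ = z x * D.dbar f x ξ := by
  simp only [dbar_coord, op_mul _ _ hz.sm hf, hz.op_zero, zero_mul, zero_add, Finset.mul_sum,
    mul_assoc]

theorem dbar_sub' {f g : S → ℂ} (hf : D.Sm f) (hg : D.Sm g) (x : S) (ξ : ι → ℂ) :
    D.dbar (fun y => f y - g y) x ξ = D.dbar f x ξ - D.dbar g x ξ := by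
  simp only [dbar_coord, op_sub _ _ hf hg, sub_mul, Finset.sum_sub_distrib]

/-- comparison of weighted squares -/
theorem SQ_of_le {ψ' : S → ℝ} (hψ' : Continuous ψ') {F : S → ℂ} (hF : Continuous F) {g : S → ℝ}
    (hg : Integrable g D.μ) (h : ∀ x, ‖F x‖ ^ 2 * Real.exp (-ψ' x) ≤ g x) :
    F ∈ D.SQ ψ' ∧ D.en ψ' F ≤ ∫ x, g x ∂D.μ := by
  have i : D.Sq ψ' F := hg.mono' ((hF.norm.pow 2).mul
    (Real.continuous_exp.comp hψ'.neg)).aestronglyMeasurable (.of_forall fun x => by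
      rw [Real.norm_of_nonneg (by positivity)]
      exact h x)
  exact ⟨(mem_SQ hψ' hF).2 i, integral_mono i hg h⟩

theorem mul_SQ (hψ : Continuous ψ) (hΦ : Continuous Φ) {z F : S → ℂ} (hz : Continuous z) {C : ℝ}
    (h : ∀ x, ‖z x‖ ^ 2 ≤ C * Real.exp (Φ x)) (hF : F ∈ D.SQ ψ) :
    z * F ∈ D.SQ (fun x => ψ x + Φ x) ∧ D.en (fun x => ψ x + Φ x) (z * F) ≤ C * D.en ψ F := by
  have := SQ_of_le (hψ.add hΦ) (hz.mul hF.1) (((mem_SQ hψ hF.1).1 hF).const_mul C) fun x => by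
    have e : Real.exp (-ψ x) = Real.exp (Φ x) * Real.exp (-(ψ x + Φ x)) := by
      rw [← Real.exp_add]; congr 1; ring
    rw [Pi.mul_apply, norm_mul, mul_pow, e, Pi.add_apply]
    have := mul_le_mul_of_nonneg_right (h x)
      (show 0 ≤ ‖F x‖ ^ 2 * Real.exp (-(ψ x + Φ x)) by positivity)
    linarith
  rwa [integral_const_mul] at this

theorem cr_step {s : S → ℝ} (hs : D.Exh s) (hΦ : D.Pos Φ) (hc : D.Cut Φ) (hφ : D.Psh φ)
    {b : S → ℂ} {u : S → ι → ℂ} (hb : D.Sm b) (hu : D.L2 Φ φ u)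
    (h : ∀ x ξ, D.gp Φ x (u x) ξ = D.dbar b x ξ)
    (ho : ∀ W, D.HH Φ φ W → ∫ x, D.gp Φ x (u x) (W x) * (Real.exp (-φ x) : ℂ) ∂D.μ = 0)
    {δ : ℝ} (hδ : 0 < δ) : ∃ β : S → ℂ, Continuous β ∧ HasCompactSupport β ∧
      ∀ (z : S → ℂ) (C : ℝ), D.Hol z → 0 ≤ C → (∀ x, ‖z x‖ ^ 2 ≤ C * Real.exp (Φ x)) →
        ∃ g, D.Hol g ∧ g - z * (b - β) ∈ D.SQ (fun x => φ x + Φ x) ∧
          D.en (fun x => φ x + Φ x) (g - z * (b - β)) ≤ C * δ := by
  obtain ⟨W, hW, o1, o2⟩ := proj hΦ hc hφ hu (cl_of_dbar hb h)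
  have w0 := hW.l2.ae_zero hΦ ((o1 W hW.l2 (hW.divF hφ.1)).symm.trans (ho W hW))
  obtain ⟨b1, v, s1, c1, sv, e1, l2, hv⟩ := o2 δ hδ
  have sf := hb.sub s1
  obtain ⟨u1, su, eu, -⟩ := exists_sharp hΦ (r := fun x k => D.op I k (fun y => b y - b1 y) x)
    (sm_pi fun k => sf.op I k)
  have e2 : ∀ x, u1 x = u x - v x := fun x => hΦ.eq_of_gp (x := x) fun ξ => by
    rw [eu, gp_sub, h, e1, ← dbar_coord, dbar_sub' hb s1]
  have p := hΦ.psh
  have ae : (fun x => D.levi Φ x (u x - W x - v x) * Real.exp (-φ x)) =ᵐ[D.μ]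
      fun x => D.levi Φ x (u1 x) * Real.exp (-φ x) := by
    filter_upwards [w0] with x hx
    rw [hx, e2, Pi.zero_apply, sub_zero]
  have i2 := l2.2.congr ae
  rw [integral_congr_ae ae] at hv
  have n2 : ∀ x, 0 ≤ D.levi Φ x (u1 x) * Real.exp (-φ x) := fun x =>
    mul_nonneg (p.2 x _) (Real.exp_pos _).le
  refine ⟨b1, s1.cont, c1, fun z C hz C0 hC => ?_⟩
  obtain ⟨F, hF, hi⟩ := D.hormander hs (φ := fun y => φ y + Φ y)
    ⟨hφ.1.add hΦ.1, fun x ξ => levi_add hφ.1 hΦ.1 x ξ ▸ add_nonneg (hφ.2 x ξ) (p.2 x ξ)⟩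
    (hz.sm.mul sf) (h := fun x => ‖z x‖ ^ 2 * D.levi Φ x (u1 x))
    ((hz.cont.norm.pow 2).mul (Bo.lv_sm hΦ.1 su.coord).cont).measurable
    (fun x => mul_nonneg (sq_nonneg _) (p.2 x _)) fun x ξ => by
      rw [dbar_hol_mul hz sf, dbar_coord, ← eu, levi_add hφ.1 hΦ.1, norm_mul, mul_pow, mul_assoc]
      refine mul_le_mul_of_nonneg_left ((gp_sq_le p x _ _).trans ?_) (sq_nonneg _)
      exact mul_le_mul_of_nonneg_left (le_add_of_nonneg_left (hφ.2 x ξ)) (p.2 x _)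
  refine ⟨F, hF, sq_of_lint (hφ.1.add hΦ.1).cont (hF.cont.sub (hz.cont.mul sf.cont))
    (by positivity) (hi.trans ((lintegral_mono fun x => ENNReal.ofReal_le_ofReal
      (q := C * (D.levi Φ x (u1 x) * Real.exp (-φ x))) ?_).trans ?_))⟩
  · have e : Real.exp (-φ x) = Real.exp (Φ x) * Real.exp (-(φ x + Φ x)) := by
      rw [← Real.exp_add]; congr 1; ring
    rw [e]
    have := mul_le_mul_of_nonneg_right (hC x)
      (mul_nonneg (p.2 x (u1 x)) (Real.exp_pos (-(φ x + Φ x))).le)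
    linarith
  · rw [← ofReal_integral_eq_lintegral_ofReal (i2.const_mul C)
      (.of_forall fun x => mul_nonneg C0 (n2 x)), integral_const_mul]
    exact ENNReal.ofReal_le_ofReal (mul_le_mul_of_nonneg_left hv C0)

theorem cr_of {s : S → ℝ} (hs : D.Exh s) (hΦ : D.Pos Φ) (hc : D.Cut Φ) (hφ : D.Psh φ)
    {κ : Type} [Fintype κ] {z : κ → S → ℂ} (hz : ∀ i, D.Hol (z i)) {i0 : κ} (h0 : ∀ x, z i0 x ≠ 0)
    {C : ℝ} (h1 : ∀ x, ∑ i, ‖z i x‖ ^ 2 ≤ C * Real.exp (Φ x))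
    (h2 : ∀ x, Real.exp (Φ x) ≤ C * ∑ i, ‖z i x‖ ^ 2) (hF : D.FinH fun x => φ x + Φ x) :
    D.CR Φ φ := by
  intro b u hb hu h ho
  have c1 := (hφ.1.add hΦ.1).cont
  have C0 := abs_nonneg C
  have := hF.fd c1
  set ω : S → ℝ := fun x => φ x + Φ x with hω
  have zb : ∀ i x, ‖z i x‖ ^ 2 ≤ |C| * Real.exp (Φ x) := fun i x =>
    (Finset.single_le_sum (f := fun i => ‖z i x‖ ^ 2) (fun _ _ => sq_nonneg _)
      (Finset.mem_univ i)).trans ((h1 x).trans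
        (mul_le_mul_of_nonneg_right (le_abs_self C) (Real.exp_pos _).le))
  have st : ∀ δ : ℝ, 0 < δ → ∃ (β : S → ℂ) (g : κ → S → ℂ), Continuous β ∧ HasCompactSupport β ∧
      ∀ i, D.Hol (g i) ∧ g i - z i * (b - β) ∈ D.SQ ω ∧ D.en ω (g i - z i * (b - β)) ≤ |C| * δ :=
    fun δ hδ => by
      obtain ⟨β, k1, k2, k3⟩ := cr_step hs hΦ hc hφ hb hu h ho hδ
      choose g hg using fun i => k3 (z i) |C| (hz i) C0 (zb i)
      exact ⟨β, g, k1, k2, hg⟩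
  let mz : κ → D.SQ ω →ₗ[ℂ] D.SQ fun x => ω x + Φ x := fun i =>
    { toFun := fun F => ⟨z i * F.1, (mul_SQ c1 hΦ.1.cont (hz i).cont (zb i) F.2).1⟩
      map_add' := fun F G => Subtype.ext (mul_add _ _ _)
      map_smul' := fun c F => Subtype.ext (mul_smul_comm _ _ _) }
  let L : (κ → D.SQ ω) →ₗ[ℂ] (κ → D.SQ fun x => ω x + Φ x) :=
    LinearMap.pi fun i => mz i0 ∘ₗ LinearMap.proj i - mz i ∘ₗ LinearMap.proj i0
  have Le : ∀ p i, (L p i).1 = z i0 * (p i).1 - z i * (p i0).1 := fun _ _ => rfl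
  let J : (κ → ↥(D.HolS ⊓ D.SQ ω)) →ₗ[ℂ] (κ → D.SQ ω) :=
    LinearMap.pi fun i => Submodule.inclusion inf_le_right ∘ₗ LinearMap.proj i
  obtain ⟨β0, g0, a1, a2, a3⟩ := st 1 one_pos
  obtain ⟨p, hp⟩ := Vl.mem_of_approx ((D.emb fun x => ω x + Φ x).compLeft κ)
    (fun a b e => funext fun i => emb_inj (congrFun e i)) (LinearMap.range (L ∘ₗ J))
    (x := L fun i => ⟨_, (a3 i).2.1⟩) fun ε ε0 => by
      have η0 : 0 < ε / (2 * |C| + 1) := by positivity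
      obtain ⟨β, g, b1, b2, b3⟩ := st _ (pow_pos η0 2)
      have q : ∀ i, g0 i - g i ∈ D.HolS ⊓ D.SQ ω := fun i => ⟨(a3 i).1.sub (b3 i).1, by
        have := add_mem (sub_mem (a3 i).2.1 (b3 i).2.1) (cpt_SQ (D := D) c1
          ((hz i).cont.mul (b1.sub a1)) (b2.sub a2).mul_left)
        rwa [show g0 i - z i * (b - β0) - (g i - z i * (b - β)) + z i * (β - β0) = g0 i - g i by
          ring] at this⟩
      refine ⟨_, ⟨fun i => ⟨_, q i⟩, rfl⟩, (pi_norm_lt_iff ε0).2 fun i => ?_⟩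
      have e : ((L fun i => ⟨_, (a3 i).2.1⟩) - (L ∘ₗ J) fun i => ⟨_, q i⟩) i =
          mz i0 ⟨_, (b3 i).2.1⟩ - mz i ⟨_, (b3 i0).2.1⟩ := Subtype.ext (by
        show (L _ i).1 - (L _ i).1 = z i0 * _ - z i * _
        rw [Le, Le]
        show _ - (z i0 * (g0 i - g i) - z i * (g0 i0 - g i0)) = _
        ring)
      have n : ∀ k l, ‖D.emb _ (mz k ⟨_, (b3 l).2.1⟩)‖ ≤ |C| * (ε / (2 * |C| + 1)) := fun k l => by
        refine abs_le_of_sq_le_sq' ?_ (by positivity) |>.2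
        rw [emb_norm]
        refine (mul_SQ c1 hΦ.1.cont (hz k).cont (zb k) (b3 l).2.1).2.trans
          ((mul_le_mul_of_nonneg_left (b3 l).2.2 C0).trans_eq (by ring))
      show ‖D.emb _ (_)‖ < ε
      rw [e, map_sub]
      refine ((norm_sub_le _ _).trans (add_le_add (n _ _) (n _ _))).trans_lt ?_
      have : ε = (2 * |C| + 1) * (ε / (2 * |C| + 1)) := by field_simp
      nlinarith
  let k : κ → S → ℂ := fun i => g0 i - z i * (b - β0) - (p i).1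
  have km : ∀ i, k i ∈ D.SQ ω := fun i => sub_mem (a3 i).2.1 (p i).2.2
  have ke : ∀ i x, k i x = z i x * (k i0 x * (z i0 x)⁻¹) := fun i x => by
    have := congrFun (congrArg Subtype.val (congrFun hp i)) x
    rw [LinearMap.comp_apply, Le, Le] at this
    have e : z i0 x * (p i).1 x - z i x * (p i0).1 x = z i0 x * (g0 i - z i * (b - β0)) x -
      z i x * (g0 i0 - z i0 * (b - β0)) x := this
    have := h0 x
    simp only [k, Pi.sub_apply, Pi.mul_apply] at e ⊢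
    field_simp
    linear_combination -e
  have zi : D.Hol fun x => (z i0 x)⁻¹ := fun x => (hz i0 x).inv (by rw [D.sec_self]; exact h0 x)
  have m := (SQ_of_le hφ.1.cont (F := fun x => k i0 x * (z i0 x)⁻¹) ((km i0).1.mul zi.cont)
    ((integrable_finsetSum Finset.univ fun i _ => (mem_SQ c1 (km i).1).1 (km i)).const_mul |C|)
    fun x => by
      have e : Real.exp (-φ x) = Real.exp (Φ x) * Real.exp (-ω x) := by
        rw [← Real.exp_add]; congr 1; simp only [hω]; ring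
      have e1 : ∀ i, ‖k i x‖ ^ 2 = ‖z i x‖ ^ 2 * ‖k i0 x * (z i0 x)⁻¹‖ ^ 2 := fun i => by
        rw [ke i x, norm_mul (z i x), mul_pow]
      have := mul_le_mul_of_nonneg_right ((h2 x).trans (mul_le_mul_of_nonneg_right (le_abs_self C)
        (Finset.sum_nonneg fun _ _ => sq_nonneg _)))
        (show 0 ≤ ‖k i0 x * (z i0 x)⁻¹‖ ^ 2 * Real.exp (-ω x) by positivity)
      rw [← Finset.sum_mul, Finset.sum_congr rfl fun i _ => e1 i, ← Finset.sum_mul, e]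
      linarith).1
  have pH : D.Hol (p i0).1 := (p i0).2.1
  have m1 := sub_mem m (cpt_SQ (D := D) hφ.1.cont a1 a2)
  refine ⟨fun x => (g0 i0 x - (p i0).1 x) * (z i0 x)⁻¹, ((a3 i0).1.sub pH).mul zi, ?_⟩
  convert (mem_SQ hφ.1.cont m1.1).1 m1 using 2 with x
  have := h0 x
  simp only [k, Pi.sub_apply, Pi.mul_apply]
  field_simp
  ring

end RD

end

end Pool.Agent.Lib.MP_5c318e_ag
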