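import Pool.Agent.Lib.MP_5c318e_ag.Vl.Defs
import Pool.Agent.Lib.MP_5c318e_ag.RD.HCut

/-! Liouville and residue statements for a complete metric. -/

set_option autoImplicit false
set_option linter.unusedSectionVars false

namespace Pool.Agent.Lib.MP_5c318e_ag

open MeasureTheory Set Complex Filter Topology
open scoped ComplexConjugate

namespace RD

variable {ι : Type} [Fintype ι] [DecidableEq ι] {S : Type} [TopologicalSpace S]
  [MeasurableSpace S] [BorelSpace S] [T2Space S] [SigmaCompactSpace S] {D : RD ι S}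
  {Φ φ ψ y : S → ℝ}

/-- Caccioppoli for a holomorphic function in one direction -/
theorem base_cacc {c : S → ℂ} (h : D.Hol c) (j : ι) {η g : S → ℝ} (s : D.Sm η)
    (k : HasCompactSupport η) (hg : Integrable g D.μ)
    (b : ∀ x, ‖D.op I j (fun y => (η y : ℂ)) x‖ ^ 2 * ‖c x‖ ^ 2 ≤ g x) :
    ∫ x, η x ^ 2 * ‖D.op (-I) j c x‖ ^ 2 ∂D.μ ≤ 4 * ∫ x, g x ∂D.μ := by
  have s1 : D.Sm (D.op (-I) j c) := h.sm.op _ j
  have z : ∀ x, D.op (-I) j (fun y => conj (D.op (-I) j c y)) x = 0 := fun x => by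
    rw [op_conj _ j s1, map_neg, conj_I, neg_neg, op_comm I j (-I) j h.sm,
      show D.op I j c = fun _ => 0 from funext (Bo.hol_op h j), op_const, map_zero]
  have sG : D.Sm fun y => (η y : ℂ) * η y * c y * conj (D.op (-I) j c y) :=
    ((s.ofReal.mul s.ofReal).mul h.sm).mul s1.conj
  have kG : HasCompactSupport fun y => (η y : ℂ) * η y * c y * conj (D.op (-I) j c y) :=
    (Bo.supp_real k).mul_right.mul_right.mul_right
  have iG := (sG.op (-I) j).int (op_supp _ j kG)
  have e0 : ∫ x, (D.op (-I) j (fun y => (η y : ℂ) * η y * c y * conj (D.op (-I) j c y)) x).re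
      ∂D.μ = 0 := (integral_re iG).trans (by rw [op_int _ j sG kG]; rfl)
  have i2 := (iG.re.const_mul 2).add (hg.const_mul 4)
  refine (integral_mono_of_nonneg (.of_forall fun x => by positivity) i2
    (.of_forall fun x => ?_)).trans_eq ?_
  · have n : ‖D.op (-I) j (fun y => (η y : ℂ)) x‖ = ‖D.op I j (fun y => (η y : ℂ)) x‖ := by
      rw [← Complex.norm_conj, conj_op s, map_neg, conj_I, neg_neg]
    have b1 := b x
    rw [← n] at b1
    simp only [Pi.add_apply, RCLike.re_to_complex]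
    rw [op_mul _ j ((s.ofReal.mul s.ofReal).mul h.sm) s1.conj, z,
      op_mul _ j (s.ofReal.mul s.ofReal) h.sm, op_mul _ j s.ofReal s.ofReal]
    set a := D.op (-I) j (fun y => (η y : ℂ)) x
    set p := D.op (-I) j c x
    have e : ((a * η x + η x * a) * c x + η x * η x * p) * conj p + η x * η x * c x * 0 =
        ((2 * η x : ℝ) : ℂ) * (a * c x * conj p) + ((η x ^ 2 * ‖p‖ ^ 2 : ℝ) : ℂ) := by
      push_cast
      rw [← mul_conj']
      ring
    rw [e, add_re, re_ofReal_mul, ofReal_re]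
    have r : |(a * c x * conj p).re| ≤ ‖a‖ * ‖c x‖ * ‖p‖ :=
      (abs_re_le_norm _).trans_eq (by rw [norm_mul, norm_mul, norm_conj])
    have r1 : -(|η x| * (‖a‖ * ‖c x‖ * ‖p‖)) ≤ η x * (a * c x * conj p).re :=
      neg_le_of_abs_le (by
        rw [abs_mul]
        exact mul_le_mul_of_nonneg_left r (abs_nonneg _))
    nlinarith [sq_nonneg (|η x| * ‖p‖ - 2 * (‖a‖ * ‖c x‖)), sq_abs (η x)]
  · simp only [Pi.add_apply]
    rw [integral_add (iG.re.const_mul 2) (hg.const_mul 4), integral_const_mul, integral_const_mul]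
    simp only [RCLike.re_to_complex]
    rw [e0, mul_zero, zero_add]

theorem const_of_sq (hΦ : D.Pos Φ) (hc : D.Cut Φ) {c : S → ℂ} (h : D.Hol c) (j : ι)
    (hi : Integrable (fun x => ‖c x‖ ^ 2 * D.levi Φ x (Pi.single j 1)) D.μ) (x : S) :
    D.op (-I) j c x = 0 := by
  have _ := hΦ
  have s1 : D.Sm (D.op (-I) j c) := h.sm.op _ j
  obtain ⟨η0, s0, k0, b0, o0, -⟩ := hc {x} isCompact_singleton 1 one_pos
  have cs : ∀ {η : S → ℝ}, HasCompactSupport η →
      HasCompactSupport fun x => η x ^ 2 * ‖D.op (-I) j c x‖ ^ 2 := fun k =>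
    (k.comp_left (g := fun r : ℝ => r ^ 2) (by simp)).mul_right
  have ct : ∀ {η : S → ℝ}, D.Sm η → Continuous fun x => η x ^ 2 * ‖D.op (-I) j c x‖ ^ 2 :=
    fun s => (s.cont.pow 2).mul (s1.cont.norm.pow 2)
  set N := ∫ x, ‖c x‖ ^ 2 * D.levi Φ x (Pi.single j 1) ∂D.μ with hN
  have key : ∀ θ : ℝ, 0 < θ → ∫ x, η0 x ^ 2 * ‖D.op (-I) j c x‖ ^ 2 ∂D.μ ≤ 4 * (θ * N) :=
    fun θ θ0 => by
      obtain ⟨η, s, k, -, o, g⟩ := hc _ k0.isCompact θ θ0
      refine le_trans (integral_mono ((ct s0).integrable_of_hasCompactSupport (cs k0))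
        ((ct s).integrable_of_hasCompactSupport (cs k)) fun y => ?_)
        ((base_cacc h j s k (hi.const_mul θ) fun y => ?_).trans_eq (by rw [integral_const_mul]))
      · refine mul_le_mul_of_nonneg_right ?_ (sq_nonneg _)
        by_cases hy : y ∈ tsupport η0
        · rw [o y hy]
          exact pow_le_pow_left₀ (b0 y).1 (b0 y).2 2
        · rw [image_eq_zero_of_notMem_tsupport hy, zero_pow two_ne_zero]
          exact sq_nonneg _
      · rw [op_dbar, mul_comm (‖c y‖ ^ 2), ← mul_assoc]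
        exact mul_le_mul_of_nonneg_right (g y _) (sq_nonneg _)
  have lim : Tendsto (fun θ : ℝ => 4 * (θ * N)) (𝓝[>] 0) (𝓝 0) :=
    (Continuous.tendsto' (by fun_prop) _ _ (by simp)).mono_left nhdsWithin_le_nhds
  have le0 := ge_of_tendsto lim (eventually_nhdsWithin_of_forall key)
  by_contra hx
  refine absurd le0 (not_le.2 ((ct s0).integral_pos_of_hasCompactSupport_nonneg_nonzero (cs k0)
    (fun y => by positivity) (x := x) ?_))
  rw [o0 x rfl]
  simpa using hx

theorem res_zero (hΦ : D.Pos Φ) (hc : D.Cut Φ) (j : ι)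
    (ha : Integrable (fun x => D.levi Φ x (Pi.single j 1)) D.μ) {c : S → ℂ} (h : D.Sm c)
    (h2 : Integrable (fun x => ‖c x‖ ^ 2) D.μ) (h1 : Integrable (D.op I j c) D.μ) :
    ∫ x, D.op I j c x ∂D.μ = 0 := by
  have v : ∀ (a : S → ℂ) (x : S), D.vd (fun _ => Pi.single j 1) a x = D.op (-I) j a x :=
    fun a x => by simp [vd, Pi.single_apply]
  have e : ∀ x, D.op (-I) j (fun y => conj (c y)) x = conj (D.op I j c x) := fun x => by
    rw [op_conj _ j h, map_neg, conj_I, neg_neg]
  have := DivF.stokes (φ := fun _ => 0) (w := fun _ => Pi.single j 1) hΦ hc (sm_const 0)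
    ⟨aestronglyMeasurable_const, by simpa using ha⟩
    (fun a sa ka => by simpa [v] using op_int (-I) j sa ka) h.conj (by simpa using h2)
    (by
      simp only [v, e, neg_zero, Real.exp_zero, ofReal_one, mul_one]
      exact (conjCLE : ℂ →L[ℝ] ℂ).integrable_comp h1)
  simp only [v, e, neg_zero, Real.exp_zero, ofReal_one, mul_one] at this
  rwa [integral_conj, map_eq_zero] at this

end RD

end Pool.Agent.Lib.MP_5c318e_ag
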