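import Pool.Agent.Lib.MP_5c318e_ag.Vl.Defs
import Pool.Agent.Lib.MP_5c318e_ag.Bo.TC

/-! The closed range property modulo the tangent fields. -/

set_option autoImplicit false
set_option linter.unusedSectionVars false

namespace Pool.Agent.Lib.MP_5c318e_ag

open MeasureTheory Set Complex Filter Topology
open scoped ComplexConjugate ContDiff

namespace RD

variable {ι : Type} [Fintype ι] [DecidableEq ι] {S : Type} [TopologicalSpace S]
  [MeasurableSpace S] [BorelSpace S] [T2Space S] [SigmaCompactSpace S] {D : RD ι S}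
  {Φ φ y : S → ℝ}

/-- a functional on the harmonic fields that kills the tangent ones is `Q (·, W)` -/
theorem exists_riesz (hΦ : D.Pos Φ) (hφ : D.Psh φ) (fin : D.FinHH Φ φ) (hy : D.Sm y) {A : ℝ}
    (yA : ∀ x ξ, |D.levi y x ξ| ≤ A * D.levi Φ x ξ) {u : S → ι → ℂ} (hu : D.L2 Φ φ u)
    (ho : ∀ W, D.HT Φ φ y W → ∫ x, D.gp Φ x (u x) (W x) * (Real.exp (-φ x) : ℂ) ∂D.μ = 0) :
    ∃ W, D.HH Φ φ W ∧ ∀ X, D.HH Φ φ X →
      ∫ x, D.gp Φ x (u x) (X x) * (Real.exp (-φ x) : ℂ) ∂D.μ =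
        ∫ x, D.gp y x (W x) (X x) * (Real.exp (-φ x) : ℂ) ∂D.μ := by
  obtain ⟨V, fV, hV⟩ := fin
  let H : Submodule ℂ (S → ι → ℂ) :=
    { carrier := {W | D.HH Φ φ W}
      add_mem' := fun a b => HH.add hΦ hφ a b
      zero_mem' := HH.zero hΦ hφ.1
      smul_mem' := fun c _ a => HH.smul hΦ hφ.1 c a }
  have : FiniteDimensional ℂ H := Submodule.finiteDimensional_of_le (S₂ := V) hV
  have cj : ∀ {ψ : S → ℝ}, D.Sm ψ → ∀ a b : S → ι → ℂ,
      ∫ x, D.gp ψ x (a x) (b x) * (Real.exp (-φ x) : ℂ) ∂D.μ =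
        conj (∫ x, D.gp ψ x (b x) (a x) * (Real.exp (-φ x) : ℂ) ∂D.μ) := fun h a b => by
    simp only [← integral_conj, map_mul, gp_conj h, conj_ofReal]
  have lin : ∀ (ψ : S → ℝ) (r : S → ι → ℂ), (∀ X, D.HH Φ φ X →
      Integrable (fun x => D.gp ψ x (X x) (r x) * (Real.exp (-φ x) : ℂ)) D.μ) →
      ∃ f : Module.Dual ℂ H, ∀ X : H,
        f X = ∫ x, D.gp ψ x (X.1 x) (r x) * (Real.exp (-φ x) : ℂ) ∂D.μ := fun ψ r hr =>
    ⟨{ toFun := fun X => ∫ x, D.gp ψ x (X.1 x) (r x) * (Real.exp (-φ x) : ℂ) ∂D.μ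
       map_add' := fun X Y => by
        rw [← integral_add (hr _ X.2) (hr _ Y.2)]
        simp only [Submodule.coe_add, Pi.add_apply, gp_add, add_mul]
       map_smul' := fun c X => by
        simp only [Submodule.coe_smul, Pi.smul_apply, gp_smul, mul_assoc, integral_const_mul,
          RingHom.id_apply, smul_eq_mul] }, fun _ => rfl⟩
  choose q hq using fun W : H => lin y W.1 fun X hX => Bo3.int_gy hΦ.psh hφ.1 hy yA hX.l2 W.2.l2
  have qc : ∀ W X, q W X = conj (q X W) := fun W X => by rw [hq, hq, cj hy]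
  let P : Submodule ℂ (Module.Dual ℂ H) :=
    { carrier := range q
      add_mem' := by
        rintro _ _ ⟨W, rfl⟩ ⟨Z, rfl⟩
        exact ⟨W + Z, LinearMap.ext fun X => by
          rw [LinearMap.add_apply, qc, map_add, map_add, ← qc, ← qc]⟩
      zero_mem' := ⟨0, LinearMap.ext fun X => by rw [qc, map_zero, map_zero, LinearMap.zero_apply]⟩
      smul_mem' := by
        rintro c _ ⟨W, rfl⟩
        exact ⟨conj c • W, LinearMap.ext fun X => by
          rw [LinearMap.smul_apply, qc, map_smul, smul_eq_mul, map_mul, conj_conj, ← qc,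
            smul_eq_mul]⟩ }
  obtain ⟨f, hf⟩ := lin Φ u fun X hX => hX.l2.int_gp hΦ.psh hφ.1 hu
  have m : f ∈ P := by
    rw [← Subspace.dualCoannihilator_dualAnnihilator_eq (W := P), Submodule.mem_dualAnnihilator]
    intro X hX
    rw [hf, cj hΦ.1, ho X.1 ⟨X.2, fun Z hZ => ?_⟩, map_zero]
    exact (hq ⟨Z, hZ⟩ X).symm.trans ((Submodule.mem_dualCoannihilator _).1 hX _ ⟨_, rfl⟩)
  obtain ⟨W, rfl⟩ := m
  refine ⟨W.1, W.2, fun X hX => ?_⟩
  rw [cj hΦ.1, cj hy, ← hf ⟨X, hX⟩, hq]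

theorem lift_core (hΦ : D.Pos Φ) (hc : D.Cut Φ) (hφ : D.Psh φ) (cr : D.CR Φ φ) (fin : D.FinHH Φ φ)
    (hy : D.Sm y) (y0 : ∀ x, 0 ≤ y x) {A : ℝ} (yA : ∀ x ξ, |D.levi y x ξ| ≤ A * D.levi Φ x ξ)
    {b : S → ℂ} (hb : D.Sm b) {u : S → ι → ℂ} (hu : D.L2 Φ φ u)
    (h : ∀ x ξ, D.gp Φ x (u x) ξ = D.dbar b x ξ)
    (ho : ∀ W, D.HT Φ φ y W → ∫ x, D.gp Φ x (u x) (W x) * (Real.exp (-φ x) : ℂ) ∂D.μ = 0)
    {R : ℝ} (R0 : 0 < R) : ∃ F, D.Hol F ∧ D.Sq (fun x => φ x + y x / R) fun x => F x - b x := by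
  have ps := hΦ.psh
  obtain ⟨W, hW, e⟩ := exists_riesz hΦ hφ fin hy yA hu ho
  obtain ⟨ρ, s, eρ⟩ := Bo3.exists_dual hΦ hy hW.hol.smv
  have r2 := Bo3.dual_l2 ps hφ.1 hy yA hW.l2 s eρ
  have sv : D.Sm (D.vr W y) := vd_sm hW.hol.smv hy.ofReal
  obtain ⟨F, hF, F2⟩ := cr (fun x => b x - D.vr W y x) (fun x => u x - ρ x) (hb.sub sv)
    (hu.sub ps hφ.1 r2) (fun x ξ => by
      rw [gp_sub, h, eρ, gp_hol hy hW.hol]
      simp only [dbar_coord, op_sub _ _ hb sv, sub_mul, Finset.sum_sub_distrib]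
      rfl)
    fun X hX => by
      simp only [gp_sub, sub_mul]
      rw [integral_sub (hu.int_gp ps hφ.1 hX.l2) (r2.int_gp ps hφ.1 hX.l2), e X hX]
      simp only [eρ, sub_self]
  have t := ((hW.fl hc ps.2).t1 hφ.1 hy y0 (Bo3.int_lv hφ.1 hy yA hW.l2) R0).1
  refine ⟨F, hF, ((Integrable.add F2 t).const_mul 2).mono' ((hF.sm.sub hb).normSq.mul
    (hφ.1.add (hy.comp (g := fun r => r / R) (by fun_prop))).neg.rexp).cont.aestronglyMeasurable
    (.of_forall fun x => ?_)⟩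
  have e1 : Real.exp (-y x / R) ≤ 1 :=
    Real.exp_le_one_iff.2 (div_nonpos_of_nonpos_of_nonneg (neg_nonpos.2 (y0 x)) R0.le)
  have n := pow_le_pow_left₀ (norm_nonneg _) (norm_sub_le (F x - (b x - D.vr W y x)) (D.vr W y x)) 2
  rw [Real.norm_of_nonneg (by positivity), neg_add, Real.exp_add, ← neg_div, Pi.add_apply]
  rw [show F x - (b x - D.vr W y x) - D.vr W y x = F x - b x by ring] at n
  have e0 := Real.exp_pos (-y x / R)
  have e2 := Real.exp_pos (-φ x)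
  set p := ‖F x - (b x - D.vr W y x)‖
  set r := ‖D.vr W y x‖
  have n2 : ‖F x - b x‖ ^ 2 ≤ 2 * (p ^ 2 + r ^ 2) := by nlinarith [sq_nonneg (p - r)]
  nlinarith [mul_le_mul_of_nonneg_right n2 (mul_pos e2 e0).le,
    mul_le_mul_of_nonneg_left e1 (by positivity : 0 ≤ p ^ 2 * Real.exp (-φ x))]

end RD

end Pool.Agent.Lib.MP_5c318e_ag
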