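import Pool.Agent.Lib.MP_5c318e_ag.RD.HAlg
import Pool.Agent.Lib.MP_5c318e_ag.S.PBas

/-! Functions pulled back from the base of a family. -/

set_option autoImplicit false
set_option linter.unusedSectionVars false

namespace Pool.Agent.Lib.MP_5c318e_ag

open MeasureTheory Set Complex Filter Topology Metric
open scoped ComplexConjugate ContDiff
open Pool.Agent.Lib.MP_9ff3e7_ag

noncomputable section

namespace RD

/-- a smooth function with vanishing derivatives is constant -/
theorem const_of_op {ι : Type} [Fintype ι] [DecidableEq ι] {S : Type} [TopologicalSpace S]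
    [MeasurableSpace S] [PreconnectedSpace S] {D : RD ι S} {u : S → ℂ} (hs : D.Sm u)
    (h1 : ∀ j x, D.op I j u x = 0) (h2 : ∀ j x, D.op (-I) j u x = 0) : ∃ c, ∀ x, u x = c := by
  have h0 : ∀ x, fderiv ℝ (fun z => u (D.sec x z)) (D.π x) = 0 := fun x => by
    set L := fderiv ℝ (fun z => u (D.sec x z)) (D.π x) with hL
    have a : ∀ j, L (Pi.single j 1) = 0 ∧ L (Pi.single j I) = 0 := fun j => by
      have e1 := h1 j x
      have e2 := h2 j x
      simp only [op, F.HC.op, ← hL] at e1 e2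
      exact ⟨by linear_combination e1 + e2, by
        linear_combination (-I) * e1 + I * e2 + L (Pi.single j I) * I_mul_I⟩
    refine ContinuousLinearMap.ext fun v => ?_
    have e : v = ∑ j, ((v j).re • (Pi.single j 1 : ι → ℂ) + (v j).im • (Pi.single j I : ι → ℂ)) := by
      funext k
      simp [Finset.sum_apply, Pi.single_apply, Finset.sum_add_distrib]
    rw [e, map_sum]
    simp [a]
  have lc : IsLocallyConstant u := by
    refine (IsLocallyConstant.iff_eventually_eq u).2 fun x => ?_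
    obtain ⟨r, hr, hr'⟩ := Metric.mem_nhds_iff.1 (tgt_nhds (D.mem_tgt x))
    have a : ∀ z ∈ ball (D.π x) r, fderiv ℝ (fun w => u (D.sec x w)) z = 0 := fun z hz => by
      have h2 := h0 (D.sec x z)
      rw [π_sec (hr' hz)] at h2
      exact (germ_f u (hr' hz)).fderiv_eq.trans h2
    filter_upwards [D.cont_π.continuousAt.eventually (ball_mem_nhds _ hr),
      (D.ch x).open_source.mem_nhds (D.mem_src x)] with y h1 h2
    have := isOpen_ball.is_const_of_fderiv_eq_zero (convex_ball _ r).isPreconnected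
      (fun z hz => ((hs.at (hr' hz)).differentiableAt (by simp)).differentiableWithinAt) a h1
      (mem_ball_self hr)
    rwa [sec_π h2, D.sec_self] at this
  obtain ⟨c, hc⟩ := lc.exists_eq_const
  exact ⟨c, fun x => congrFun hc x⟩

end RD

variable {δ ν K M : Type} [Fintype δ] [DecidableEq δ] [Fintype ν] [DecidableEq ν]
  [Field K] [Algebra ℂ K] [Field M] [Algebra ℂ M] [Algebra K M] {B : Cht δ K} (T : Rel B ν M)

namespace Rel

theorem pb_π (p : Pt T.X.O) : (fun i => T.X.D.π p (Sum.inl i)) = B.D.π (p.res T.inc) :=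
  funext fun i => by rw [T.X.π_eq, B.π_eq, T.zy]; rfl

theorem pb_germ (p : Pt T.X.O) : ∀ᶠ z in 𝓝 (T.X.D.π p),
    (T.X.D.sec p z).res T.inc = B.D.sec (p.res T.inc) fun i => z (Sum.inl i) := by
  filter_upwards [T.X.D.π_sec_ev p, (((Pt.continuous_res T.inc).tendsto p).comp
    (T.X.D.tendsto_sec p)).eventually ((B.D.ch _).open_source.mem_nhds (B.D.mem_src _))]
    with z h1 h2
  have h3 := RD.sec_π (D := B.D) (y := (T.X.D.sec p z).res T.inc) h2
  rw [← T.pb_π, h1] at h3
  exact h3.symm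

variable {T}

theorem pb_sm {E : Type} [NormedAddCommGroup E] [NormedSpace ℝ E] {g : Pt B.O → E} (hg : B.D.Sm g) :
    T.X.D.Sm fun p => g (p.res T.inc) := fun p => by
  have h := hg (p.res T.inc)
  rw [← T.pb_π] at h
  exact (h.comp (T.X.D.π p) (f := fun z : δ ⊕ ν → ℂ => fun i => z (Sum.inl i))
    (by fun_prop)).congr_of_eventuallyEq ((T.pb_germ p).mono fun z hz => congrArg g hz)

theorem pb_hol {g : Pt B.O → ℂ} (hg : B.D.Hol g) :
    T.X.D.Hol fun p => g (p.res T.inc) := fun p => by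
  have h := hg (p.res T.inc)
  rw [← T.pb_π] at h
  exact (h.comp (T.X.D.π p) (f := fun z : δ ⊕ ν → ℂ => fun i => z (Sum.inl i))
    (by fun_prop)).congr_of_eventuallyEq ((T.pb_germ p).mono fun z hz => congrArg g hz)

theorem pb_op {g : Pt B.O → ℂ} (hg : B.D.Sm g) (c : ℂ) (k : δ ⊕ ν) (p : Pt T.X.O) :
    T.X.D.op c k (fun p => g (p.res T.inc)) p =
      Sum.elim (fun i => B.D.op c i g (p.res T.inc)) (fun _ => 0) k := by
  let L : (δ ⊕ ν → ℂ) →L[ℝ] (δ → ℂ) :=
    ContinuousLinearMap.pi fun i => ContinuousLinearMap.proj (Sum.inl i)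
  have h := (hg.diff (p.res T.inc)).hasFDerivAt
  have e : B.D.π (p.res T.inc) = L (T.X.D.π p) := (T.pb_π p).symm
  have h1 := (show HasFDerivAt _ _ (L (T.X.D.π p)) from e ▸ h).comp (T.X.D.π p) L.hasFDerivAt
  have h2 := (h1.congr_of_eventuallyEq ((T.pb_germ p).mono fun z hz => congrArg g hz)).fderiv
  have l1 : ∀ i (a : ℂ), L (Pi.single (Sum.inl i) a) = Pi.single i a := fun i a => funext fun j => by
    simp [L, Pi.single_apply]
  have l2 : ∀ i (a : ℂ), L (Pi.single (Sum.inr i) a) = 0 := fun i a => funext fun j => by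
    simp [L]
  rw [RD.op, F.HC.op, h2]
  rcases k with i | i
  · simp only [ContinuousLinearMap.comp_apply, l1, Sum.elim_inl, RD.op, F.HC.op, e]
  · simp [l2]

theorem pb_dbar {g : Pt B.O → ℂ} (hg : B.D.Sm g) (p : Pt T.X.O) (ξ : δ ⊕ ν → ℂ) :
    T.X.D.dbar (fun p => g (p.res T.inc)) p ξ =
      B.D.dbar g (p.res T.inc) fun i => ξ (Sum.inl i) := by
  simp [RD.dbar_coord, pb_op hg, Fintype.sum_sum_type]

theorem pb_gm {g : Pt B.O → ℝ} (hg : B.D.Sm g) (p : Pt T.X.O) (j k : δ ⊕ ν) :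
    T.X.D.gm (fun p => g (p.res T.inc)) p j k =
      Sum.elim (fun j => Sum.elim (fun k => B.D.gm g (p.res T.inc) j k) (fun _ => 0) k)
        (fun _ => 0) j := by
  rw [RD.gm, funext (pb_op hg.ofReal I k)]
  rcases k with k | k
  · rw [show (fun p : Pt T.X.O => Sum.elim (fun i => B.D.op I i (fun y => (g y : ℂ)) (p.res T.inc))
      (fun _ : ν => 0) (Sum.inl k)) = fun p => B.D.op I k (fun y => (g y : ℂ)) (p.res T.inc) from rfl,
      pb_op (hg.ofReal.op I k)]
    rcases j with j | j <;> rfl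
  · rcases j with j | j <;> exact RD.op_const _ _ _ _

theorem pb_gp {g : Pt B.O → ℝ} (hg : B.D.Sm g) (p : Pt T.X.O) (ξ ζ : δ ⊕ ν → ℂ) :
    T.X.D.gp (fun p => g (p.res T.inc)) p ξ ζ =
      B.D.gp g (p.res T.inc) (fun i => ξ (Sum.inl i)) fun i => ζ (Sum.inl i) := by
  simp [RD.gp, pb_gm hg, Fintype.sum_sum_type]

theorem pb_levi {g : Pt B.O → ℝ} (hg : B.D.Sm g) (p : Pt T.X.O) (ξ : δ ⊕ ν → ℂ) :
    T.X.D.levi (fun p => g (p.res T.inc)) p ξ =
      B.D.levi g (p.res T.inc) fun i => ξ (Sum.inl i) := by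
  rw [← RD.gp_re (pb_sm hg), pb_gp hg, RD.gp_re hg]

/-- the base component of a field is its derivative of the base coordinate -/
theorem vd_z (W : Pt T.X.O → δ ⊕ ν → ℂ) (k : δ ⊕ ν) (p : Pt T.X.O) :
    T.X.D.vd W (fun p => T.X.D.π p k) p = W p k := by
  have e : ∀ j, T.X.D.op (-I) j (fun p => T.X.D.π p k) p = if j = k then 1 else 0 := fun j => by
    let L : (δ ⊕ ν → ℂ) →L[ℝ] ℂ := ContinuousLinearMap.proj k
    have h := (L.hasFDerivAt.congr_of_eventuallyEq (f₁ := fun z => T.X.D.π (T.X.D.sec p z) k)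
      ((T.X.D.π_sec_ev p).mono fun z hz => congrFun hz k)).fderiv
    rw [RD.op, F.HC.op, h]
    by_cases hj : j = k
    · simp [L, hj]
    · simp [L, hj]
  simp [RD.vd, e]

end Rel

end

end Pool.Agent.Lib.MP_5c318e_ag
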