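import Pool.Agent.Lib.MP_5c318e_ag.Vl.Fin
import Pool.Agent.Lib.MP_5c318e_ag.Vl.CR
import Pool.Agent.Lib.MP_5c318e_ag.Vl.Core
import Pool.Agent.Lib.MP_5c318e_ag.Vl.Base
import Pool.Agent.Lib.MP_5c318e_ag.Vl.Pb
import Pool.Agent.Lib.MP_5c318e_ag.S.CFub

/-! The tangent lift over a curve. -/

set_option autoImplicit false
set_option linter.unusedSectionVars false

namespace Pool.Agent.Lib.MP_5c318e_ag

open MeasureTheory Set Complex Filter Topology
open scoped ComplexConjugate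

noncomputable section

variable {δ ν K M : Type} [Fintype δ] [DecidableEq δ] [Fintype ν] [DecidableEq ν]
  [Field K] [Algebra ℂ K] [Field M] [Algebra ℂ M] [Algebra K M] [IsScalarTower ℂ K M]

namespace Rel

section any

variable {B : Cht δ K} {T : Rel B ν M} {ρ : Type} [Fintype ρ] {τ : ρ → Pt T.X.O → ℂ}
  {ψ : Pt T.X.O → ℝ}

theorem int_low (hτ : ∀ i, Continuous (τ i)) (hψ : Continuous ψ)
    (low : ∃ κ : ℝ, 0 < κ ∧ ∀ᵐ b ∂B.D.μ, ∀ a : ρ → ℂ, ENNReal.ofReal (κ * ‖a‖ ^ 2) ≤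
      ∫⁻ p, ENNReal.ofReal (‖∑ i, a i * τ i p.1‖ ^ 2 * Real.exp (-ψ p.1)) ∂(T.fib b).μ)
    {c : ρ → Pt B.O → ℂ} (hc : ∀ i, Continuous (c i)) {w : Pt B.O → ℝ} (hw : Continuous w)
    (w0 : ∀ b, 0 ≤ w b) (h : Integrable (fun p => ‖∑ i, c i (p.res T.inc) * τ i p‖ ^ 2 *
      Real.exp (-ψ p) * w (p.res T.inc)) T.X.D.μ) (i : ρ) :
    Integrable (fun b => ‖c i b‖ ^ 2 * w b) B.D.μ := by
  obtain ⟨κ, κ0, low⟩ := low
  have q := Pt.continuous_res T.inc
  have m : Continuous fun p : Pt T.X.O => ‖∑ i, c i (p.res T.inc) * τ i p‖ ^ 2 *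
      Real.exp (-ψ p) * w (p.res T.inc) := by fun_prop
  have h1 := (lintegral_ofReal_ne_top_iff_integrable m.aestronglyMeasurable
    (.of_forall fun p => mul_nonneg (by positivity) (w0 _))).2 h
  rw [(T.fubini m.measurable.ennreal_ofReal).2] at h1
  have m1 : Continuous fun b => κ * (‖c i b‖ ^ 2 * w b) := by fun_prop
  have h2 := (lintegral_ofReal_ne_top_iff_integrable (μ := B.D.μ) m1.aestronglyMeasurable
    (.of_forall fun b => mul_nonneg κ0.le (mul_nonneg (sq_nonneg _) (w0 b)))).1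
    (ne_top_of_le_ne_top h1 (lintegral_mono_ae (low.mono fun b hb => by
      have e : ∀ p : {p : Pt T.X.O // p.res T.inc = b}, ENNReal.ofReal
          (‖∑ i, c i (p.1.res T.inc) * τ i p.1‖ ^ 2 * Real.exp (-ψ p.1) * w (p.1.res T.inc)) =
          ENNReal.ofReal (‖∑ i, c i b * τ i p.1‖ ^ 2 * Real.exp (-ψ p.1)) * ENNReal.ofReal (w b) :=
        fun p => by rw [p.2, ENNReal.ofReal_mul (by positivity)]
      simp only [e]
      rw [lintegral_mul_const' _ _ ENNReal.ofReal_ne_top, ← mul_assoc,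
        ENNReal.ofReal_mul (by positivity)]
      refine mul_le_mul_left (le_trans (ENNReal.ofReal_le_ofReal ?_) (hb fun i => c i b)) _
      exact mul_le_mul_of_nonneg_left (pow_le_pow_left₀ (norm_nonneg _)
        (norm_le_pi_norm (fun i => c i b) i) 2) κ0.le)))
  exact (integrable_const_mul_iff (isUnit_iff_ne_zero.2 κ0.ne') _).1 h2

theorem int_up (hτ : ∀ i, Continuous (τ i)) (hψ : Continuous ψ)
    (up : ∃ C : ℝ, ∀ᵐ b ∂B.D.μ, ∀ i,
      ∫⁻ p, ENNReal.ofReal (‖τ i p.1‖ ^ 2 * Real.exp (-ψ p.1)) ∂(T.fib b).μ ≤ ENNReal.ofReal C)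
    {w : Pt B.O → ℝ} (hw : Continuous w) (w0 : ∀ b, 0 ≤ w b) (wi : Integrable w B.D.μ)
    (a : ρ → ℂ) : Integrable (fun p => ‖∑ i, a i * τ i p‖ ^ 2 * Real.exp (-ψ p) *
      w (p.res T.inc)) T.X.D.μ := by
  classical
  obtain ⟨C, up⟩ := up
  have q := Pt.continuous_res T.inc
  have one : ∀ i, Integrable (fun p => ‖τ i p‖ ^ 2 * Real.exp (-ψ p) * w (p.res T.inc)) T.X.D.μ :=
    fun i => by
      have m : Continuous fun p : Pt T.X.O => ‖τ i p‖ ^ 2 * Real.exp (-ψ p) * w (p.res T.inc) := by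
        fun_prop
      refine (lintegral_ofReal_ne_top_iff_integrable m.aestronglyMeasurable
        (.of_forall fun p => mul_nonneg (by positivity) (w0 _))).1 ?_
      rw [(T.fubini m.measurable.ennreal_ofReal).2]
      refine ne_top_of_le_ne_top (b := ∫⁻ b, ENNReal.ofReal C * ENNReal.ofReal (w b) ∂B.D.μ) ?_
        (lintegral_mono_ae (up.mono fun b hb => ?_))
      · rw [lintegral_const_mul' _ _ ENNReal.ofReal_ne_top]
        exact ENNReal.mul_ne_top ENNReal.ofReal_ne_top ((lintegral_ofReal_ne_top_iff_integrable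
          hw.aestronglyMeasurable (.of_forall w0)).2 wi)
      · have e : ∀ p : {p : Pt T.X.O // p.res T.inc = b}, ENNReal.ofReal
            (‖τ i p.1‖ ^ 2 * Real.exp (-ψ p.1) * w (p.1.res T.inc)) =
            ENNReal.ofReal (‖τ i p.1‖ ^ 2 * Real.exp (-ψ p.1)) * ENNReal.ofReal (w b) :=
          fun p => by rw [p.2, ENNReal.ofReal_mul (by positivity)]
        simp only [e]
        rw [lintegral_mul_const' _ _ ENNReal.ofReal_ne_top]
        exact mul_le_mul_left (hb i) _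
  refine ((integrable_finsetSum Finset.univ fun i _ => one i).const_mul (∑ i, ‖a i‖ ^ 2)).mono'
    (Continuous.aestronglyMeasurable (by fun_prop)) (.of_forall fun p => ?_)
  rw [Real.norm_of_nonneg (mul_nonneg (by positivity) (w0 _)), ← Finset.sum_mul, ← Finset.sum_mul,
    ← mul_assoc, ← mul_assoc]
  exact mul_le_mul_of_nonneg_right (mul_le_mul_of_nonneg_right (RD.sum_mul_sq_le _ _)
    (Real.exp_pos _).le) (w0 _)

end any

variable {B : Cht Unit K} [PreconnectedSpace (Pt B.O)]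

theorem lv_unit {g : Pt B.O → ℝ} (hg : B.D.Sm g) (b : Pt B.O) (ζ : Unit → ℂ) :
    B.D.levi g b ζ = ‖ζ ()‖ ^ 2 * B.D.levi g b 1 := by
  rw [← RD.levi_smul hg]
  congr 1
  funext i
  simp

theorem single_unit : (Pi.single () 1 : Unit → ℂ) = 1 := funext fun _ => by simp

theorem op_unit {g : Pt B.O → ℝ} (hg : B.D.Sm g) (b : Pt B.O) :
    B.D.op I () (B.D.op (-I) () fun y => (g y : ℂ)) b = B.D.levi g b 1 := by
  rw [RD.op_comm _ _ _ _ hg.ofReal, ← RD.gp_self hg]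
  simp [RD.gp, RD.gm]

/-- the base component of a harmonic field has constant coefficients -/
theorem res (T : Rel B ν M) {ρ : Type} [Fintype ρ] {τ : ρ → Pt T.X.O → ℂ}
    (hτ : ∀ i, T.X.D.Hol (τ i)) {Φ φ y : Pt T.X.O → ℝ} {ΦB : Pt B.O → ℝ}
    (hφ : Continuous φ) (hy : Continuous y) (y0 : ∀ x, 0 ≤ y x)
    (hB : B.D.Pos ΦB) (cB : B.D.Cut ΦB)
    (le : ∀ p ξ, B.D.levi ΦB (p.res T.inc) (fun i => ξ (Sum.inl i)) ≤ T.X.D.levi Φ p ξ)
    {R : ℝ} (R0 : 0 < R)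
    (sat : ∀ (F : Pt T.X.O → ℂ) (w : Pt B.O → ℝ), T.X.D.Hol F → Continuous w → (∀ b, 0 < w b) →
      Integrable (fun p => ‖F p‖ ^ 2 * Real.exp (-(φ p + y p / R)) * w (p.res T.inc)) T.X.D.μ →
      ∃ c : ρ → Pt B.O → ℂ, (∀ i, B.D.Hol (c i)) ∧ ∀ p, F p = ∑ i, c i (p.res T.inc) * τ i p)
    (low : ∃ κ : ℝ, 0 < κ ∧ ∀ᵐ b ∂B.D.μ, ∀ a : ρ → ℂ, ENNReal.ofReal (κ * ‖a‖ ^ 2) ≤
      ∫⁻ p, ENNReal.ofReal (‖∑ i, a i * τ i p.1‖ ^ 2 * Real.exp (-(φ p.1 + y p.1 / R))) ∂(T.fib b).μ)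
    {W : Pt T.X.O → Unit ⊕ ν → ℂ} (hW : T.X.D.Hol W) (l2 : T.X.D.L2 Φ φ W) :
    ∃ a : ρ → ℂ, ∀ p, W p (Sum.inl ()) = ∑ i, a i * τ i p := by
  have q := Pt.continuous_res T.inc
  have αc : Continuous fun b => B.D.levi ΦB b 1 := (RD.Bo.lv_sm hB.1 fun _ => RD.sm_const _).cont
  have α0 : ∀ b, 0 < B.D.levi ΦB b 1 := fun b => hB.2 b 1 one_ne_zero
  have F := hW.coord (Sum.inl ())
  have Fc := F.cont
  have i : Integrable (fun p => ‖W p (Sum.inl ())‖ ^ 2 * Real.exp (-(φ p + y p / R)) *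
      B.D.levi ΦB (p.res T.inc) 1) T.X.D.μ := by
    refine l2.2.mono' (Continuous.aestronglyMeasurable
      (Continuous.mul (by fun_prop) (αc.comp q))) (.of_forall fun p => ?_)
    rw [Real.norm_of_nonneg (mul_nonneg (by positivity) (α0 _).le), mul_right_comm]
    refine mul_le_mul ((lv_unit hB.1 _ fun i => W p (Sum.inl i)).symm.trans_le (le p _))
      (Real.exp_le_exp.2 (neg_le_neg (le_add_of_nonneg_right (div_nonneg (y0 p) R0.le))))
      (Real.exp_pos _).le ((hB.psh.2 _ _).trans (le p _))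
  obtain ⟨c, hc, e⟩ := sat _ _ F αc α0 i
  simp only [e] at i
  choose a ha using fun k => RD.const_of_op (hc k).sm (hc k).op_zero fun _ b =>
    RD.const_of_sq hB cB (hc k) () (by
      rw [single_unit]
      exact int_low (fun i => (hτ i).cont) (ψ := fun p => φ p + y p / R) (by fun_prop) low
        (fun i => (hc i).cont) αc (fun b => (α0 b).le) i k) b
  exact ⟨a, fun p => by simp only [e, ha]⟩

/-- every constant combination of the `τ i` is the base component of a tangent field -/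
theorem lift (T : Rel B ν M) {ρ : Type} [Fintype ρ] {τ : ρ → Pt T.X.O → ℂ}
    (hτ : ∀ i, T.X.D.Hol (τ i)) {Φ φ y : Pt T.X.O → ℝ} {ΦB : Pt B.O → ℝ}
    (hΦ : T.X.D.Pos Φ) (hc : T.X.D.Cut Φ) (hφ : T.X.D.Psh φ) (cr : T.X.D.CR Φ φ)
    (fin : T.X.D.FinHH Φ φ) (hy : T.X.D.Sm y) (y0 : ∀ x, 0 ≤ y x) {A : ℝ}
    (yA : ∀ x ξ, |T.X.D.levi y x ξ| ≤ A * T.X.D.levi Φ x ξ)
    (hB : B.D.Pos ΦB) (cB : B.D.Cut ΦB) (area : Integrable (fun b => B.D.levi ΦB b 1) B.D.μ)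
    (le : ∀ p ξ, B.D.levi ΦB (p.res T.inc) (fun i => ξ (Sum.inl i)) ≤ T.X.D.levi Φ p ξ)
    {R : ℝ} (R0 : 0 < R)
    (sat : ∀ (F : Pt T.X.O → ℂ) (w : Pt B.O → ℝ), T.X.D.Hol F → Continuous w → (∀ b, 0 < w b) →
      Integrable (fun p => ‖F p‖ ^ 2 * Real.exp (-(φ p + y p / R)) * w (p.res T.inc)) T.X.D.μ →
      ∃ c : ρ → Pt B.O → ℂ, (∀ i, B.D.Hol (c i)) ∧ ∀ p, F p = ∑ i, c i (p.res T.inc) * τ i p)
    (low : ∃ κ : ℝ, 0 < κ ∧ ∀ᵐ b ∂B.D.μ, ∀ a : ρ → ℂ, ENNReal.ofReal (κ * ‖a‖ ^ 2) ≤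
      ∫⁻ p, ENNReal.ofReal (‖∑ i, a i * τ i p.1‖ ^ 2 * Real.exp (-(φ p.1 + y p.1 / R))) ∂(T.fib b).μ)
    (up : ∃ C : ℝ, ∀ᵐ b ∂B.D.μ, ∀ i,
      ∫⁻ p, ENNReal.ofReal (‖τ i p.1‖ ^ 2 * Real.exp (-φ p.1)) ∂(T.fib b).μ ≤ ENNReal.ofReal C)
    (a : ρ → ℂ) :
    ∃ W, T.X.D.HT Φ φ y W ∧ ∀ p, W p (Sum.inl ()) = ∑ i, a i * τ i p := by
  have q := Pt.continuous_res T.inc
  have φc := hφ.1.cont
  have yc := hy.cont
  have τc := fun i => (hτ i).cont
  set α : Pt B.O → ℝ := fun b => B.D.levi ΦB b 1 with hα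
  have αc : Continuous α := (RD.Bo.lv_sm hB.1 fun _ => RD.sm_const _).cont
  have α0 : ∀ b, 0 < α b := fun b => hB.2 b 1 one_ne_zero
  have lα : ∀ p ξ, ‖ξ (Sum.inl ())‖ ^ 2 * α (p.res T.inc) ≤ T.X.D.levi Φ p ξ := fun p ξ =>
    (lv_unit hB.1 _ fun i => ξ (Sum.inl i)).symm.trans_le (le p _)
  set ψ : Pt T.X.O → ℝ := fun p => φ p - Real.log (α (p.res T.inc)) with hψ
  have ψc : Continuous ψ := φc.sub ((αc.comp q).log fun p => (α0 _).ne')
  have eψ : ∀ p, Real.exp (-ψ p) = Real.exp (-φ p) * α (p.res T.inc) := fun p => by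
    rw [hψ, neg_sub, sub_eq_neg_add, Real.exp_add, Real.exp_log (α0 _)]
  have ms : ∀ e : ρ → ℂ, (fun p => ∑ i, e i * τ i p) ∈ T.X.D.SQ ψ := fun e =>
    (RD.mem_SQ ψc (by fun_prop)).2 (by
      simpa only [RD.Sq, eψ, mul_assoc] using int_up τc φc up αc (fun b => (α0 b).le) area e)
  let H : Submodule ℂ (Pt T.X.O → Unit ⊕ ν → ℂ) :=
    { carrier := {W | T.X.D.HT Φ φ y W}
      add_mem' := fun {W Z} a b => ⟨a.1.add hΦ hφ b.1, fun X hX => by
        simp only [Pi.add_apply, RD.gp_add, add_mul]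
        rw [integral_add (RD.Bo3.int_gy hΦ.psh hφ.1 hy yA a.1.l2 hX.l2)
          (RD.Bo3.int_gy hΦ.psh hφ.1 hy yA b.1.l2 hX.l2), a.2 X hX, b.2 X hX, add_zero]⟩
      zero_mem' := ⟨RD.HH.zero hΦ hφ.1, fun X _ => by simp [RD.gp]⟩
      smul_mem' := fun c W a => ⟨a.1.smul hΦ hφ.1 c, fun X hX => by
        simp only [Pi.smul_apply, RD.gp_smul, mul_assoc, integral_const_mul, a.2 X hX, mul_zero]⟩ }
  obtain ⟨V, fV, hV⟩ := id fin
  have : FiniteDimensional ℂ H := Submodule.finiteDimensional_of_le (S₂ := V) fun W h => hV W h.1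
  let t : H →ₗ[ℂ] T.X.D.SQ ψ :=
    { toFun := fun W => ⟨fun p => W.1 p (Sum.inl ()), (RD.SQ_of_le ψc (W.2.1.hol.coord _).cont
        W.2.1.l2.2 fun p => by
          rw [eψ, mul_comm (Real.exp _), ← mul_assoc]
          exact mul_le_mul_of_nonneg_right (lα p _) (Real.exp_pos _).le).1⟩
      map_add' := fun _ _ => rfl
      map_smul' := fun _ _ => rfl }
  obtain ⟨_, ⟨W1, rfl⟩, z, hz, ez⟩ := Submodule.exists_add_mem_mem_orthogonal
    (K := LinearMap.range (T.X.D.emb ψ ∘ₗ t)) (T.X.D.emb ψ ⟨_, ms a⟩)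
  obtain ⟨c, ec⟩ := T.res hτ φc yc y0 hB cB le R0 sat low W1.2.1.hol W1.2.1.l2
  have ez' : z = T.X.D.emb ψ ⟨_, ms (a - c)⟩ := by
    rw [← sub_eq_of_eq_add' ez, LinearMap.comp_apply, ← map_sub]
    refine congrArg _ (Subtype.ext (funext fun p => ?_))
    show ∑ i, a i * τ i p - W1.1 p (Sum.inl ()) = ∑ i, (a - c) i * τ i p
    simp only [ec, Pi.sub_apply, sub_mul, Finset.sum_sub_distrib]
  refine ⟨W1.1, W1.2, fun p0 => ?_⟩
  suffices a - c = 0 by rw [ec, sub_eq_zero.1 this]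
  generalize a - c = e at ez'
  set s : Pt T.X.O → ℂ := fun p => ∑ i, e i * τ i p with hs
  have sH : T.X.D.Hol s := RD.hol_sum _ fun i _ => (RD.hol_const _).mul (hτ i)
  set b0 := B.D.op (-I) () fun y => (ΦB y : ℂ) with hb0
  have b0s : B.D.Sm b0 := hB.1.ofReal.op _ _
  have bs : T.X.D.Sm fun p => s p * b0 (p.res T.inc) := sH.sm.mul (pb_sm b0s)
  have db : ∀ p ξ, T.X.D.dbar (fun p => s p * b0 (p.res T.inc)) p ξ =
      s p * (α (p.res T.inc) * conj (ξ (Sum.inl ()))) := fun p ξ => by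
    rw [RD.dbar_hol_mul sH (pb_sm b0s), pb_dbar b0s, RD.dbar_coord, Fintype.sum_unique, hb0,
      op_unit hB.1]
  obtain ⟨u, us, ue, ub⟩ := RD.exists_sharp hΦ
    (r := fun p k => T.X.D.op I k (fun p => s p * b0 (p.res T.inc)) p) (RD.sm_pi fun k => bs.op I k)
  simp only [← RD.dbar_coord] at ue ub
  have si : Integrable (fun p => ‖s p‖ ^ 2 * Real.exp (-φ p) * α (p.res T.inc)) T.X.D.μ :=
    int_up τc φc up αc (fun b => (α0 b).le) area e
  have ul : T.X.D.L2 Φ φ u := ⟨us.cont.aestronglyMeasurable, si.mono'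
    ((RD.Bo.lv_sm hΦ.1 us.coord).mul hφ.1.neg.rexp).cont.aestronglyMeasurable
    (.of_forall fun p => by
      rw [Real.norm_of_nonneg (mul_nonneg (hΦ.psh.2 _ _) (Real.exp_pos _).le), mul_right_comm]
      refine mul_le_mul_of_nonneg_right (ub p _ (mul_nonneg (sq_nonneg _) (α0 _).le) fun ξ => ?_)
        (Real.exp_pos _).le
      rw [db, norm_mul, norm_mul, norm_conj, norm_real, Real.norm_of_nonneg (α0 _).le]
      refine le_trans (le_of_eq (by ring)) (mul_le_mul_of_nonneg_left (lα p ξ)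
        (mul_nonneg (sq_nonneg ‖s p‖) (α0 (p.res T.inc)).le)))⟩
  obtain ⟨F, hF, Fs⟩ := RD.lift_core hΦ hc hφ cr fin hy y0 yA bs ul ue (fun W hW => by
    have := (Submodule.mem_orthogonal _ _).1 hz _ ⟨⟨W, hW⟩, rfl⟩
    rw [ez', LinearMap.comp_apply, RD.inner_ae _ _ (RD.emb_ae _) (RD.emb_ae _)] at this
    rw [← this]
    congr 1
    funext p
    have r : RD.rt (-ψ p) * RD.rt (-ψ p) = (Real.exp (-φ p) : ℝ) * (α (p.res T.inc) : ℂ) := by
      rw [RD.rt_mul, add_self_div_two, eψ, ofReal_mul]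
    rw [ue, db, map_mul, RD.rt_conj]
    show _ = s p * _ * (conj (W p (Sum.inl ())) * _)
    linear_combination -(s p * conj (W p (Sum.inl ()))) * r) R0
  have b0c := b0s.cont
  have w0 : ∀ b, 0 < α b / ((1 + α b) * (1 + ‖b0 b‖ ^ 2)) := fun b => by
    have := α0 b
    positivity
  have wc : Continuous fun b => α b / ((1 + α b) * (1 + ‖b0 b‖ ^ 2)) :=
    αc.div (by fun_prop) fun b => by
      have := α0 b
      positivity
  have Fc := hF.cont
  obtain ⟨h, hh, eh⟩ := sat F _ hF wc w0 (((Fs.const_mul 2).add (si.const_mul 2)).mono'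
    (Continuous.aestronglyMeasurable (Continuous.mul (by fun_prop) (wc.comp q)))
    (.of_forall fun p => by
      rw [Real.norm_of_nonneg (mul_nonneg (by positivity) (w0 _).le), Pi.add_apply]
      have a0 := α0 (p.res T.inc)
      generalize α (p.res T.inc) = x at a0 ⊢
      have n0 : 0 ≤ ‖b0 (p.res T.inc)‖ ^ 2 := sq_nonneg _
      have n1 : ‖F p‖ ^ 2 ≤ 2 * ‖F p - s p * b0 (p.res T.inc)‖ ^ 2 +
          2 * (‖s p‖ ^ 2 * ‖b0 (p.res T.inc)‖ ^ 2) := by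
        have := pow_le_pow_left₀ (norm_nonneg _)
          (norm_add_le (F p - s p * b0 (p.res T.inc)) (s p * b0 (p.res T.inc))) 2
        rw [sub_add_cancel, norm_mul] at this
        nlinarith [sq_nonneg (‖F p - s p * b0 (p.res T.inc)‖ - ‖s p‖ * ‖b0 (p.res T.inc)‖)]
      generalize ‖b0 (p.res T.inc)‖ ^ 2 = n at n0 n1 ⊢
      have w1 : x / ((1 + x) * (1 + n)) ≤ 1 := (div_le_one (by positivity)).2 (by nlinarith)
      have w2 : n * (x / ((1 + x) * (1 + n))) ≤ x := by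
        rw [← mul_div_assoc, div_le_iff₀ (by positivity)]
        nlinarith [mul_nonneg a0.le a0.le, mul_nonneg (mul_nonneg a0.le a0.le) n0]
      have w3 : 0 ≤ x / ((1 + x) * (1 + n)) := by positivity
      generalize x / ((1 + x) * (1 + n)) = w at w1 w2 w3 ⊢
      have x1 : Real.exp (-(φ p + y p / R)) ≤ Real.exp (-φ p) :=
        Real.exp_le_exp.2 (neg_le_neg (le_add_of_nonneg_right (div_nonneg (y0 p) R0.le)))
      have x0 := (Real.exp_pos (-(φ p + y p / R))).le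
      have k1 := mul_le_mul_of_nonneg_right n1 (mul_nonneg x0 w3)
      have k2 := mul_le_mul_of_nonneg_left w1
        (mul_nonneg (sq_nonneg ‖F p - s p * b0 (p.res T.inc)‖) x0)
      have k3 := mul_le_mul_of_nonneg_left (mul_le_mul x1 w2 (mul_nonneg n0 w3) (Real.exp_pos _).le)
        (sq_nonneg ‖s p‖)
      nlinarith))
  funext i
  have cs : ∀ i, B.D.Sm fun b => h i b - e i * b0 b := fun i =>
    (hh i).sm.sub ((RD.sm_const _).mul b0s)
  have i2 := int_low τc (ψ := fun p => φ p + y p / R) (by fun_prop) low (fun i => (cs i).cont)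
    (w := fun _ => 1) continuous_const (fun _ => zero_le_one) (by
      refine Fs.congr (.of_forall fun p => ?_)
      simp only [mul_one, eh, hs, sub_mul, Finset.sum_sub_distrib, Finset.sum_mul, mul_right_comm])
      i
  have eo : B.D.op I () (fun b => h i b - e i * b0 b) = fun b => -e i * (α b : ℂ) := funext fun b => by
    rw [RD.op_sub _ _ (hh i).sm ((RD.sm_const _).mul b0s), RD.op_mul _ _ (RD.sm_const _) b0s,
      (hh i).op_zero, RD.op_const, hb0, op_unit hB.1]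
    ring
  have z0 := RD.res_zero hB cB () (by rwa [single_unit]) (cs i) (by simpa only [mul_one] using i2)
    (eo ▸ area.ofReal.const_mul _)
  rw [eo, integral_const_mul, integral_complex_ofReal, mul_eq_zero, neg_eq_zero, ofReal_eq_zero,
    integral_eq_zero_iff_of_nonneg (fun b => (α0 b).le) area] at z0
  exact z0.resolve_right fun h0 => (α0 (p0.res T.inc)).ne'
    (congrFun ((αc.ae_eq_iff_eq B.D.μ continuous_zero).1 h0) _)

end Rel

end

end Pool.Agent.Lib.MP_5c318e_ag
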