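import Pool.Agent.Lib.MP_5c318e_ag.Bo.TDefs

/-! Finiteness, closed range and tangent fields: definitions. -/

set_option autoImplicit false

namespace Pool.Agent.Lib.MP_5c318e_ag

open MeasureTheory Set Complex Filter Topology

namespace RD

variable {ι : Type} [Fintype ι] [DecidableEq ι] {S : Type} [TopologicalSpace S]
  [MeasurableSpace S] (D : RD ι S)

/-- finitely many square integrable holomorphic functions -/
def FinH (ψ : S → ℝ) : Prop := ∃ V : Submodule ℂ (S → ℂ), FiniteDimensional ℂ V ∧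
  ∀ F, D.Hol F → D.Sq ψ F → F ∈ V

/-- finitely many harmonic fields -/
def FinHH (Φ φ : S → ℝ) : Prop := ∃ V : Submodule ℂ (S → ι → ℂ), FiniteDimensional ℂ V ∧
  ∀ W, D.HH Φ φ W → W ∈ V

/-- closed range -/
def CR (Φ φ : S → ℝ) : Prop := ∀ (b : S → ℂ) (u : S → ι → ℂ), D.Sm b → D.L2 Φ φ u →
  (∀ x ξ, D.gp Φ x (u x) ξ = D.dbar b x ξ) →
  (∀ W, D.HH Φ φ W → ∫ x, D.gp Φ x (u x) (W x) * (Real.exp (-φ x) : ℂ) ∂D.μ = 0) →
  ∃ F, D.Hol F ∧ D.Sq φ fun x => F x - b x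

/-- tangent harmonic fields: the radical of `Q = ∫ levi y` on the harmonic fields -/
def HT (Φ φ y : S → ℝ) (W : S → ι → ℂ) : Prop := D.HH Φ φ W ∧
  ∀ X, D.HH Φ φ X → ∫ x, D.gp y x (W x) (X x) * (Real.exp (-φ x) : ℂ) ∂D.μ = 0

variable {D}

theorem HT.q [BorelSpace S] [T2Space S] [SigmaCompactSpace S] {Φ φ y : S → ℝ} (hy : D.Sm y)
    {W : S → ι → ℂ} (h : D.HT Φ φ y W) :
    ∫ x, D.levi y x (W x) * Real.exp (-φ x) ∂D.μ = 0 := by
  have := h.2 W h.1
  simp only [Bo.gp_self hy, ← ofReal_mul] at this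
  rwa [integral_complex_ofReal, ofReal_eq_zero] at this

end RD

end Pool.Agent.Lib.MP_5c318e_ag
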