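import Pool.Agent.Lib.MP_5c318e_ag.Vl.Defs
import Pool.Agent.Lib.MP_5c318e_ag.RD.HAlg

/-! Spaces of square integrable holomorphic functions of countable dimension are finite
dimensional. -/

set_option autoImplicit false
set_option linter.unusedSectionVars false

namespace Pool.Agent.Lib.MP_5c318e_ag

open MeasureTheory Set Complex Filter Topology
open scoped ComplexConjugate

noncomputable section

namespace Vl

variable {H U : Type} [NormedAddCommGroup H] [NormedSpace ℂ H] [AddCommGroup U] [Module ℂ U]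

theorem baire [CompleteSpace H] (j : H →ₗ[ℂ] U) (hj : Function.Injective j) {T : Set U}
    (hT : T.Countable) (h : ∀ x, j x ∈ Submodule.span ℂ T) : FiniteDimensional ℂ H := by
  have := (countable_ofPred_finite_subset hT).to_subtype
  let A : {F : Set U | F.Finite ∧ F ⊆ T} → Submodule ℂ H := fun F => (Submodule.span ℂ F.1).comap j
  have fd : ∀ F, FiniteDimensional ℂ (A F) := fun F => by
    have := FiniteDimensional.span_of_finite ℂ F.2.1
    exact FiniteDimensional.of_injective (j.restrict (p := A F) (q := Submodule.span ℂ F.1)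
      fun x hx => hx) fun a b e => Subtype.ext (hj (congrArg Subtype.val e))
  obtain ⟨F, hF⟩ := nonempty_interior_of_iUnion_of_closed (f := fun F => (A F : Set H))
    (fun F => (A F).closed_of_finiteDimensional) (eq_univ_of_forall fun x => by
      obtain ⟨F, h1, h2⟩ := Submodule.mem_span_finite_of_mem_span (h x)
      exact mem_iUnion.2 ⟨⟨F, F.finite_toSet, h1⟩, h2⟩)
  have := fd F
  rw [(A F).eq_top_of_nonempty_interior' hF] at this
  exact Submodule.topEquiv.finiteDimensional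

theorem mem_of_approx (e : U →ₗ[ℂ] H) (he : Function.Injective e) (R : Submodule ℂ U)
    [FiniteDimensional ℂ R] {x : U} (h : ∀ ε : ℝ, 0 < ε → ∃ r ∈ R, ‖e (x - r)‖ < ε) : x ∈ R := by
  have : e x ∈ closure (R.map e : Set H) := Metric.mem_closure_iff.2 fun ε ε0 => by
    obtain ⟨r, hr, h1⟩ := h ε ε0
    exact ⟨_, ⟨r, hr, rfl⟩, by rwa [dist_eq_norm, ← map_sub]⟩
  rw [(R.map e).closed_of_finiteDimensional.closure_eq] at this
  obtain ⟨r, hr, h1⟩ := this
  exact he h1 ▸ hr

/-- a functional that kills the radical of a form is represented by the form -/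
theorem exists_rep [FiniteDimensional ℂ U] (Q : U → U →ₗ[ℂ] ℂ)
    (ha : ∀ x y w, Q (x + y) w = Q x w + Q y w) (hs : ∀ (c : ℂ) x w, Q (c • x) w = conj c * Q x w)
    (l : U →ₗ[ℂ] ℂ) (h : ∀ w, (∀ x, Q x w = 0) → l w = 0) : ∃ x, ∀ w, l w = Q x w := by
  have h1 := FiniteDimensional.mem_span_of_iInf_ker_le_ker (L := Q) (K := l) fun w hw =>
    h w fun x => (Submodule.mem_iInf _).1 hw x
  refine Submodule.span_induction (p := fun l _ => ∃ x, ∀ w, l w = Q x w) ?_ ?_ ?_ ?_ h1
  · rintro _ ⟨x, rfl⟩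
    exact ⟨x, fun _ => rfl⟩
  · exact ⟨0, fun w => by simpa using (hs 0 0 w).symm⟩
  · rintro a b - - ⟨x, hx⟩ ⟨y, hy⟩
    exact ⟨x + y, fun w => by rw [ha, LinearMap.add_apply, hx, hy]⟩
  · rintro c a - ⟨x, hx⟩
    exact ⟨conj c • x, fun w => by rw [hs, conj_conj, LinearMap.smul_apply, hx, smul_eq_mul]⟩

end Vl

namespace RD

variable {ι : Type} [Fintype ι] [DecidableEq ι] {S : Type} [TopologicalSpace S]
  [MeasurableSpace S] [BorelSpace S] [T2Space S] [SigmaCompactSpace S] {D : RD ι S}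
  {Φ φ ψ : S → ℝ}

variable (D) in
/-- continuous square integrable functions -/
def SQ (ψ : S → ℝ) : Submodule ℂ (S → ℂ) where
  carrier := {F | Continuous F ∧ MemLp (fun x => F x * rt (-ψ x)) 2 D.μ}
  add_mem' := fun ha hb => ⟨ha.1.add hb.1, (memLp_congr_ae (.of_forall fun _ =>
    (add_mul _ _ _).symm)).1 (ha.2.add hb.2)⟩
  zero_mem' := ⟨continuous_zero, by simp⟩
  smul_mem' := fun c a ha => ⟨ha.1.const_smul c, by
    simpa only [Pi.smul_apply, smul_eq_mul, mul_assoc] using ha.2.const_mul c⟩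

theorem mem_SQ (hψ : Continuous ψ) {F : S → ℂ} (hF : Continuous F) : F ∈ D.SQ ψ ↔ D.Sq ψ F := by
  refine (and_iff_right hF).trans ?_
  refine (memLp_two_iff_integrable_sq_norm
    (hF.mul (rt_cont.comp hψ.neg)).aestronglyMeasurable).trans ?_
  simp only [Pi.mul_apply, Function.comp, Pi.neg_apply, rt_norm, Sq]

variable (D) in
/-- the embedding into `L²` -/
def emb (ψ : S → ℝ) : D.SQ ψ →ₗ[ℂ] Lp ℂ 2 D.μ where
  toFun F := F.2.2.toLp _
  map_add' F G := by
    rw [← MemLp.toLp_add]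
    exact MemLp.toLp_congr _ _ (.of_forall fun x => add_mul _ _ _)
  map_smul' c F := by
    rw [RingHom.id_apply, ← MemLp.toLp_const_smul]
    exact MemLp.toLp_congr _ _ (.of_forall fun x => mul_assoc _ _ _)

theorem emb_ae (F : D.SQ ψ) : D.emb ψ F =ᵐ[D.μ] fun x => F.1 x * rt (-ψ x) := F.2.2.coeFn_toLp

theorem emb_norm (F : D.SQ ψ) : ‖D.emb ψ F‖ ^ 2 = D.en ψ F.1 := by
  rw [norm_ae _ (emb_ae F)]
  simp only [rt_norm, en]

theorem rt_ne (r : ℝ) : rt r ≠ 0 := ofReal_ne_zero.2 (Real.exp_pos _).ne'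

theorem rt_neg (r : ℝ) : rt (-r) * rt r = 1 := by simp [rt_mul]

theorem emb_inj : Function.Injective (D.emb ψ) := fun F G h => by
  refine Subtype.ext ((F.2.1.ae_eq_iff_eq D.μ G.2.1).1 ?_)
  filter_upwards [emb_ae F, emb_ae G] with x h1 h2
  rw [h, h2] at h1
  exact (mul_right_cancel₀ (rt_ne _) h1).symm

variable (D) in
/-- holomorphic functions -/
def HolS : Submodule ℂ (S → ℂ) where
  carrier := {F | D.Hol F}
  add_mem' := fun ha hb => ha.add hb
  zero_mem' := hol_const 0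
  smul_mem' := fun c _ ha => (hol_const c).mul ha

theorem FinH.fd (h : D.FinH ψ) (hψ : Continuous ψ) : FiniteDimensional ℂ ↥(D.HolS ⊓ D.SQ ψ) := by
  obtain ⟨V, _, h⟩ := h
  exact Submodule.finiteDimensional_of_le (S₂ := V) fun F hF =>
    h F hF.1 ((mem_SQ hψ hF.2.1).1 hF.2)

theorem finH_of_countable (hψ : Continuous ψ) {T : Set (S → ℂ)} (hT : T.Countable)
    (h : ∀ F, D.Hol F → D.Sq ψ F → F ∈ Submodule.span ℂ T) : D.FinH ψ := by
  have := D.wlc
  let e : ↥(D.HolS ⊓ D.SQ ψ) →ₗ[ℂ] Lp ℂ 2 D.μ := D.emb ψ ∘ₗ Submodule.inclusion inf_le_right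
  have ei : Function.Injective e := emb_inj.comp (Submodule.inclusion_injective _)
  have rc : Continuous fun x => rt (ψ x) := rt_cont.comp hψ
  have m : ∀ a : S → ℂ, D.Sm a → HasCompactSupport a → ∀ j,
      MemLp (fun x => conj (rt (ψ x) * D.op I j a x)) 2 D.μ := fun a ha hc j =>
    (continuous_conj.comp (rc.mul (ha.op I j).cont)).memLp_of_hasCompactSupport
      ((op_supp I j hc).mul_left.comp_left (g := fun z : ℂ => conj z) (map_zero _))
  have r : (LinearMap.range e : Set (Lp ℂ 2 D.μ)) =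
      ⋂ a, ⋂ ha, ⋂ hc, ⋂ j, {g | inner ℂ ((m a ha hc j).toLp _) g = 0} := by
    ext g
    simp only [mem_iInter, mem_ofPred_eq]
    constructor
    · rintro ⟨F, rfl⟩ a ha hc j
      have hF : D.Hol F.1 := F.2.1
      rw [inner_ae _ (e F) (m a ha hc j).coeFn_toLp (emb_ae ⟨F.1, F.2.2⟩)]
      have := op_int_mul I j hF.sm ha hc
      simp only [hF.op_zero, zero_mul, integral_zero, zero_eq_neg] at this
      rw [← this]
      congr 1
      funext x
      rw [conj_conj, mul_assoc, ← mul_assoc (rt _), rt_neg, one_mul]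
    · intro hg
      obtain ⟨G, hG, eG⟩ := weyl (D := D) (g := fun x => g x * rt (ψ x))
        (((Lp.memLp g).locallyIntegrable one_le_two).mul_continuous rc) fun a ha hc j => by
          rw [← hg a ha hc j, inner_ae _ _ (m a ha hc j).coeFn_toLp (ae_eq_refl _)]
          simp only [conj_conj, mul_assoc]
      have e1 : (fun x => G x * rt (-ψ x)) =ᵐ[D.μ] g := by
        filter_upwards [eG] with x hx
        rw [hx, mul_assoc, mul_comm (rt _), rt_neg, mul_one]
      have mG : G ∈ D.SQ ψ := ⟨hG.cont, (memLp_congr_ae e1).2 (Lp.memLp g)⟩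
      exact ⟨⟨G, hG, mG⟩, Lp.ext ((emb_ae ⟨G, mG⟩).trans e1)⟩
  have cl : IsClosed (LinearMap.range e : Set (Lp ℂ 2 D.μ)) := by
    rw [r]
    exact isClosed_iInter fun a => isClosed_iInter fun ha => isClosed_iInter fun hc =>
      isClosed_iInter fun j => isClosed_eq (by fun_prop) continuous_const
  have : CompleteSpace (LinearMap.range e) := cl.completeSpace_coe
  have := Vl.baire ((D.HolS ⊓ D.SQ ψ).subtype ∘ₗ (LinearEquiv.ofInjective e ei).symm.toLinearMap)
    (Subtype.val_injective.comp (LinearEquiv.injective _)) hT fun g => by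
      have := ((LinearEquiv.ofInjective e ei).symm g).2
      exact h _ this.1 ((mem_SQ hψ this.2.1).1 this.2)
  exact ⟨D.HolS ⊓ D.SQ ψ, (LinearEquiv.ofInjective e ei).symm.finiteDimensional,
    fun F h1 h2 => ⟨h1, (mem_SQ hψ h1.cont).2 h2⟩⟩

theorem FinH.hh (h : D.FinH ψ) (hψ : Continuous ψ)
    (hl : ∀ x ξ j, ‖ξ j‖ ^ 2 * Real.exp (-ψ x) ≤ D.levi Φ x ξ * Real.exp (-φ x)) :
    D.FinHH Φ φ := by
  obtain ⟨V, _, h⟩ := h
  let e : (ι → V) →ₗ[ℂ] (S → ι → ℂ) :=
    { toFun := fun p x j => (p j).1 x, map_add' := fun _ _ => rfl, map_smul' := fun _ _ => rfl }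
  refine ⟨LinearMap.range e, inferInstance, fun W hW => ⟨fun j => ⟨fun x => W x j, ?_⟩, rfl⟩⟩
  refine h _ (hW.hol.coord j) (hW.l2.2.mono' (((hW.hol.coord j).cont.norm.pow 2).mul
    (Real.continuous_exp.comp hψ.neg)).aestronglyMeasurable (.of_forall fun x => ?_))
  rw [Real.norm_of_nonneg (by positivity)]
  exact hl x _ j

/-- monotonicity in the weight -/
theorem FinH.mono {ψ' : S → ℝ} (h : D.FinH ψ) (hψ : Continuous ψ) {C : ℝ}
    (hl : ∀ x, ψ' x ≤ ψ x + C) : D.FinH ψ' := by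
  obtain ⟨V, _, h⟩ := h
  refine ⟨V, ‹_›, fun F h1 h2 => h F h1 ((h2.const_mul (Real.exp C)).mono'
    ((h1.cont.norm.pow 2).mul (Real.continuous_exp.comp hψ.neg)).aestronglyMeasurable
    (.of_forall fun x => ?_))⟩
  rw [Real.norm_of_nonneg (by positivity), mul_left_comm, ← Real.exp_add]
  exact mul_le_mul_of_nonneg_left (Real.exp_le_exp.2 (by linarith [hl x])) (sq_nonneg _)

end RD

end

end Pool.Agent.Lib.MP_5c318e_ag
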